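import Pool.Agent.H583Z.TA.P6bAux
import Pool.Agent.H859Z.TaP6a

set_option autoImplicit false

namespace Pool.Agent.H754Z.TA

open MeasureTheory Filter Topology Pointwise

universe u v

theorem IsGN.blowup {G : Type u} [Group G] [TopologicalSpace G] [IsTopologicalGroup G]
    {ν : G → ℝ} {C : ℝ} (h : IsGN ν C) {ι : Type v} (𝒰 : Ultrafilter ι) (x : ι → G) (ε : ι → ℝ)
    (M : ℝ) (hM : 0 ≤ M) (hε : ∀ᶠ i in 𝒰, 0 < ε i) (hε0 : Tendsto ε 𝒰 (𝓝 0))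
    (hx : ∀ᶠ i in 𝒰, ν (x i) ≤ M * ε i) :
    ∃ γ : ℝ → G, IsOP ν M γ ∧
      (∀ t : ℝ, Tendsto (fun i => ν ((γ t)⁻¹ * x i ^ ⌊t / ε i⌋)) 𝒰 (𝓝 0)) ∧
      Tendsto (fun i => ν ((γ (ε i))⁻¹ * x i) / ε i) 𝒰 (𝓝 0) :=
  P6b.blowup_aux h h.pow_lower 𝒰 x ε M hM hε hε0 hx

theorem IsGN.approx {G : Type u} [Group G] [TopologicalSpace G] [IsTopologicalGroup G]
    {ν : G → ℝ} {C : ℝ} (h : IsGN ν C) (δ : ℝ) (hδ : 0 < δ) :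
    ∃ r > 0, ∀ y, ν y ≤ r → ∃ γ : ℝ → G, IsOP ν 1 γ ∧ ν ((γ (ν y))⁻¹ * y) ≤ δ * ν y :=
  P6b.approx_aux h h.pow_lower δ hδ

end Pool.Agent.H754Z.TA
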