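import Pool.Agent.H754Z.TA.Str

set_option autoImplicit false

namespace Pool.Agent.H754Z.TA.P6b

open MeasureTheory Filter Topology Pointwise

universe u v

variable {G : Type u} [Group G] {ν : G → ℝ}

lemma npow_le (h : IsLen ν) (y : G) (n : ℕ) : ν (y ^ n) ≤ n * ν y := by
  induction n with
  | zero => simp [h.one]
  | succ n ih => rw [pow_succ]; push_cast; linarith [h.mul (y ^ n) y]

lemma zpow_le (h : IsLen ν) (y : G) (m : ℤ) : ν (y ^ m) ≤ |(m : ℝ)| * ν y := by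
  obtain ⟨n, rfl | rfl⟩ := Int.eq_nat_or_neg m
  · simpa using npow_le h y n
  · rw [zpow_neg, h.inv]; simpa using npow_le h y n

lemma floor_abs_le (t e : ℝ) (he : 0 < e) : |((⌊t / e⌋ : ℤ) : ℝ)| * e ≤ |t| + e := by
  have h1 := Int.floor_le (t / e)
  have h2 := Int.lt_floor_add_one (t / e)
  rw [le_div_iff₀ he] at h1
  rw [div_lt_iff₀ he] at h2
  rw [← abs_of_pos he, ← abs_mul, abs_of_pos he, abs_le]
  constructor <;> nlinarith [le_abs_self t, neg_abs_le t]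

lemma op_dist (h : IsLen ν) {M : ℝ} {γ : ℝ → G} (hγ : IsOP ν M γ) (a b : ℝ) :
    ν ((γ a)⁻¹ * γ b) ≤ M * |b - a| := by
  have e : (γ a)⁻¹ * γ b = γ (b - a) * ((γ (a + (b - a)))⁻¹ * (γ a * γ (b - a)))⁻¹ := by
    rw [show a + (b - a) = b by ring]; group
  have h1 := h.mul (γ (b - a)) ((γ (a + (b - a)))⁻¹ * (γ a * γ (b - a)))⁻¹
  rw [h.inv, hγ.hom, ← e] at h1
  linarith [hγ.lip (b - a)]

lemma op_pow (h : IsLen ν) {M : ℝ} {γ : ℝ → G} (hγ : IsOP ν M γ) (e : ℝ) (n : ℕ) :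
    ν ((γ (n * e))⁻¹ * γ e ^ n) ≤ 0 := by
  induction n with
  | zero => simpa [h.inv] using hγ.lip 0
  | succ n ih =>
    have e1 : (γ (((n + 1 : ℕ) : ℝ) * e))⁻¹ * γ e ^ (n + 1)
        = ((γ (e + n * e))⁻¹ * (γ e * γ (n * e))) * ((γ (n * e))⁻¹ * γ e ^ n) := by
      rw [show ((n + 1 : ℕ) : ℝ) * e = e + n * e by push_cast; ring, pow_succ']; group
    rw [e1]
    linarith [h.mul ((γ (e + n * e))⁻¹ * (γ e * γ (n * e))) ((γ (n * e))⁻¹ * γ e ^ n),
      hγ.hom e (n * e)]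

variable [TopologicalSpace G] [IsTopologicalGroup G] {C : ℝ}

lemma exists_compact_nat (h : IsGN ν C) (L : ℕ) : ∃ K : Set G, IsCompact K ∧
    ∀ (y : G) (n : ℕ), ν y ≤ 1 / (2 * C) → n * ν y ≤ L / (2 * C) → y ^ n ∈ K := by
  have hC : 0 < C := lt_of_lt_of_le one_pos h.one_le
  have hC1 : 0 < 1 / C := by positivity
  induction L with
  | zero =>
    refine ⟨_, h.cpt, fun y n _ hn => ?_⟩
    have := npow_le h.toIsLen y n
    simp only [Nat.cast_zero, zero_div] at hn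
    change ν (y ^ n) ≤ 1 / C
    linarith
  | succ L ih =>
    obtain ⟨K, hK, hKm⟩ := ih
    refine ⟨{x | ν x ≤ 1 / C} ∪ {x | ν x ≤ 1 / C} * K, h.cpt.union (h.cpt.mul hK),
      fun y n hy hn => ?_⟩
    by_cases h1 : n * ν y ≤ 1 / C
    · exact Or.inl ((npow_le h.toIsLen y n).trans h1)
    · right
      push Not at h1
      have hy0 : 0 < ν y := by
        rcases (h.nonneg y).eq_or_lt with h0 | h0
        · rw [← h0, mul_zero] at h1; linarith
        · exact h0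
      set k := ⌊(1 / C) / ν y⌋₊ with hk
      have k1 : (k : ℝ) * ν y ≤ 1 / C := by
        rw [← le_div_iff₀ hy0]; exact Nat.floor_le (by positivity)
      have k2 : 1 / C < (k + 1) * ν y := by
        rw [← div_lt_iff₀ hy0]; exact Nat.lt_floor_add_one _
      have kn : k ≤ n := by
        have : (k : ℝ) < n := lt_of_mul_lt_mul_right (k1.trans_lt h1) hy0.le
        exact_mod_cast this.le
      have e2 : 1 / C = 2 * (1 / (2 * C)) := by field_simp
      have e3 : ((L + 1 : ℕ) : ℝ) / (2 * C) = L / (2 * C) + 1 / (2 * C) := by push_cast; ring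
      rw [← pow_mul_pow_sub y kn]
      refine Set.mul_mem_mul ((npow_le h.toIsLen y k).trans k1) (hKm y (n - k) hy ?_)
      push_cast [Nat.cast_sub kn]
      nlinarith

lemma exists_compact (h : IsGN ν C) (R : ℝ) : ∃ K : Set G, IsCompact K ∧
    ∀ (y : G) (m : ℤ), ν y ≤ 1 / (2 * C) → |(m : ℝ)| * ν y ≤ R → y ^ m ∈ K := by
  have hC : 0 < C := lt_of_lt_of_le one_pos h.one_le
  obtain ⟨L, hL⟩ := exists_nat_ge (R * (2 * C))
  obtain ⟨K, hK, hKm⟩ := exists_compact_nat h L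
  have hR : R ≤ L / (2 * C) := by rw [le_div_iff₀ (by positivity)]; exact hL
  refine ⟨K, hK, fun y m hy hm => ?_⟩
  obtain ⟨n, rfl | rfl⟩ := Int.eq_nat_or_neg m
  · rw [zpow_natCast]
    exact hKm y n hy (le_trans (by simpa using hm) hR)
  · rw [zpow_neg, zpow_natCast, ← inv_pow]
    refine hKm y⁻¹ n (by rwa [h.inv]) (le_trans ?_ hR)
    rw [h.inv]; simpa using hm

theorem blowup_aux (h : IsGN ν C)
    (hpl : ∀ (g k : G) (n : ℕ), n * ν g ≤ 1 / (4 * C ^ 2) → n * ν k ≤ 1 / (4 * C ^ 2) →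
      n * ν (g⁻¹ * k) ≤ 2 * C * ν ((g ^ n)⁻¹ * k ^ n))
    {ι : Type v} (𝒰 : Ultrafilter ι) (x : ι → G) (ε : ι → ℝ)
    (M : ℝ) (hM : 0 ≤ M) (hε : ∀ᶠ i in 𝒰, 0 < ε i) (hε0 : Tendsto ε 𝒰 (𝓝 0))
    (hx : ∀ᶠ i in 𝒰, ν (x i) ≤ M * ε i) :
    ∃ γ : ℝ → G, IsOP ν M γ ∧
      (∀ t : ℝ, Tendsto (fun i => ν ((γ t)⁻¹ * x i ^ ⌊t / ε i⌋)) 𝒰 (𝓝 0)) ∧
      Tendsto (fun i => ν ((γ (ε i))⁻¹ * x i) / ε i) 𝒰 (𝓝 0) := by
  have hC : 0 < C := lt_of_lt_of_le one_pos h.one_le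
  have hMε : Tendsto (fun i => M * ε i) 𝒰 (𝓝 0) := by simpa using hε0.const_mul M
  have hb : ∀ t : ℝ, ∀ᶠ i in 𝒰, |((⌊t / ε i⌋ : ℤ) : ℝ)| * ν (x i) ≤ M * |t| + M * ε i := by
    intro t
    filter_upwards [hε, hx] with i h1 h2
    have h3 := floor_abs_le t (ε i) h1
    calc _ ≤ |((⌊t / ε i⌋ : ℤ) : ℝ)| * (M * ε i) := mul_le_mul_of_nonneg_left h2 (abs_nonneg _)
      _ = M * (|((⌊t / ε i⌋ : ℤ) : ℝ)| * ε i) := by ring
      _ ≤ M * (|t| + ε i) := mul_le_mul_of_nonneg_left h3 hM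
      _ = _ := by ring
  have hlim : ∀ t : ℝ, ∃ g : G, Tendsto (fun i => x i ^ ⌊t / ε i⌋) 𝒰 (𝓝 g) := by
    intro t
    obtain ⟨K, hK, hKm⟩ := exists_compact h (M * |t| + 1)
    have hev : ∀ᶠ i in 𝒰, x i ^ ⌊t / ε i⌋ ∈ K := by
      filter_upwards [hb t, hx, hMε.eventually (gt_mem_nhds one_pos),
        hMε.eventually (gt_mem_nhds (show 0 < 1 / (2 * C) by positivity))] with i h1 h2 h3 h4
      exact hKm _ _ (by linarith) (by linarith)
    obtain ⟨g, -, hg⟩ := hK.ultrafilter_le_nhds (𝒰.map fun i => x i ^ ⌊t / ε i⌋)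
      (by rw [le_principal_iff]; exact hev)
    exact ⟨g, hg⟩
  choose γ hγ using hlim
  have hop : IsOP ν M γ := by
    constructor
    · intro s t
      refine le_antisymm ?_ (h.nonneg _)
      have t1 := (h.cont.tendsto _).comp ((hγ (s + t)).inv.mul ((hγ s).mul (hγ t)))
      refine le_of_tendsto_of_tendsto t1 hMε ?_
      filter_upwards [hε, hx] with i h1 h2
      simp only [Function.comp]
      rw [← zpow_neg, ← zpow_add, ← zpow_add]
      refine (zpow_le h.toIsLen _ _).trans (le_trans ?_ h2)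
      refine mul_le_of_le_one_left (h.nonneg _) ?_
      have a1 := Int.le_floor_add (s / ε i) (t / ε i)
      have a2 := Int.le_floor_add_floor (s / ε i) (t / ε i)
      rw [← add_div] at a1 a2
      have : |-⌊(s + t) / ε i⌋ + (⌊s / ε i⌋ + ⌊t / ε i⌋)| ≤ 1 := abs_le.2 ⟨by omega, by omega⟩
      exact_mod_cast this
    · intro t
      have t1 := (h.cont.tendsto _).comp (hγ t)
      have t2 : Tendsto (fun i => M * |t| + M * ε i) 𝒰 (𝓝 (M * |t|)) := by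
        simpa using hMε.const_add (M * |t|)
      refine le_of_tendsto_of_tendsto t1 t2 ?_
      filter_upwards [hb t] with i h1
      exact (zpow_le h.toIsLen _ _).trans h1
  have h2 : ∀ t : ℝ, Tendsto (fun i => ν ((γ t)⁻¹ * x i ^ ⌊t / ε i⌋)) 𝒰 (𝓝 0) := by
    intro t
    have t1 := (h.cont.tendsto _).comp ((hγ t).const_mul (γ t)⁻¹)
    rw [inv_mul_cancel, h.one] at t1
    exact t1
  refine ⟨γ, hop, h2, ?_⟩
  set s : ℝ := 1 / (4 * C ^ 2) / (M + 1) with hs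
  have hs0 : 0 < s := by positivity
  have hsM : M * s ≤ 1 / (4 * C ^ 2) := by
    have : (M + 1) * s = 1 / (4 * C ^ 2) := by rw [hs]; field_simp
    linarith
  have t3 : Tendsto (fun i => 4 * C / s * (M * ε i + ν ((γ s)⁻¹ * x i ^ ⌊s / ε i⌋))) 𝒰 (𝓝 0) := by
    simpa using (hMε.add (h2 s)).const_mul (4 * C / s)
  refine squeeze_zero' ?_ ?_ t3
  · filter_upwards [hε] with i h1
    exact div_nonneg (h.nonneg _) h1.le
  · filter_upwards [hε, hx, hε0.eventually (gt_mem_nhds (half_pos hs0))] with i h1 h3 h4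
    set e := ε i
    set n := ⌊s / e⌋₊ with hn
    have n1 : (n : ℝ) * e ≤ s := by
      rw [← le_div_iff₀ h1]; exact Nat.floor_le (by positivity)
    have n2 : s < (n + 1) * e := by
      rw [← div_lt_iff₀ h1]; exact Nat.lt_floor_add_one _
    have n0 : (0 : ℝ) ≤ n := by positivity
    have hz : x i ^ ⌊s / e⌋ = x i ^ n := by
      rw [← zpow_natCast, hn, Int.natCast_floor_eq_floor (by positivity)]
    rw [hz]
    have hMn : (n : ℝ) * (M * e) ≤ 1 / (4 * C ^ 2) := by nlinarith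
    have g1 : ν (γ e) ≤ M * e := by simpa [abs_of_pos h1] using hop.lip e
    have p := hpl (γ e) (x i) n ((mul_le_mul_of_nonneg_left g1 n0).trans hMn)
      ((mul_le_mul_of_nonneg_left h3 n0).trans hMn)
    have q1 : ν ((γ e ^ n)⁻¹ * x i ^ n) ≤ M * e + ν ((γ s)⁻¹ * x i ^ n) := by
      have e1 : (γ e ^ n)⁻¹ * x i ^ n = ((γ (n * e))⁻¹ * γ e ^ n)⁻¹ *
          (((γ (n * e))⁻¹ * γ s) * ((γ s)⁻¹ * x i ^ n)) := by group
      have a1 := h.mul ((γ (n * e))⁻¹ * γ e ^ n)⁻¹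
        (((γ (n * e))⁻¹ * γ s) * ((γ s)⁻¹ * x i ^ n))
      have a2 := h.mul ((γ (n * e))⁻¹ * γ s) ((γ s)⁻¹ * x i ^ n)
      have a3 := op_pow h.toIsLen hop e n
      have a4 := op_dist h.toIsLen hop (n * e) s
      rw [abs_of_nonneg (by linarith)] at a4
      rw [h.inv, ← e1] at a1
      nlinarith
    have q2 := mul_le_mul_of_nonneg_left q1 (show 0 ≤ 2 * C by positivity)
    have w0 := h.nonneg ((γ e)⁻¹ * x i)
    set w := ν ((γ e)⁻¹ * x i)
    set Z := M * e + ν ((γ s)⁻¹ * x i ^ n)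
    have q3 : (n : ℝ) * w ≤ 2 * C * Z := p.trans q2
    rw [div_le_iff₀ h1, div_mul_eq_mul_div, div_mul_eq_mul_div, le_div_iff₀ hs0]
    have q4 : s ≤ 2 * (n * e) := by nlinarith
    calc w * s ≤ w * (2 * (n * e)) := mul_le_mul_of_nonneg_left q4 w0
      _ = 2 * e * (n * w) := by ring
      _ ≤ 2 * e * (2 * C * Z) := mul_le_mul_of_nonneg_left q3 (by positivity)
      _ = _ := by ring

theorem approx_aux (h : IsGN ν C)
    (hpl : ∀ (g k : G) (n : ℕ), n * ν g ≤ 1 / (4 * C ^ 2) → n * ν k ≤ 1 / (4 * C ^ 2) →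
      n * ν (g⁻¹ * k) ≤ 2 * C * ν ((g ^ n)⁻¹ * k ^ n)) (δ : ℝ) (hδ : 0 < δ) :
    ∃ r > 0, ∀ y, ν y ≤ r → ∃ γ : ℝ → G, IsOP ν 1 γ ∧ ν ((γ (ν y))⁻¹ * y) ≤ δ * ν y := by
  by_contra hcon
  push Not at hcon
  choose y hy1 hy2 using fun n : ℕ => hcon (1 / ((n : ℝ) + 1)) (by positivity)
  have hpos : ∀ n, 0 < ν (y n) := by
    intro n
    rcases (h.nonneg (y n)).eq_or_lt with h0 | h0
    · have := hy2 n (fun _ => 1) ⟨fun s t => by simp [h.one], fun t => by simp [h.one]⟩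
      simp [← h0] at this
    · exact h0
  have ht : Tendsto (fun n => ν (y n)) (hyperfilter ℕ) (𝓝 0) :=
    (squeeze_zero (fun n => h.nonneg _) hy1 tendsto_one_div_add_atTop_nhds_zero_nat).mono_left
      Nat.hyperfilter_le_atTop
  obtain ⟨γ, hγ, -, h3⟩ := blowup_aux h hpl (hyperfilter ℕ) y (fun n => ν (y n)) 1 zero_le_one
    (Eventually.of_forall hpos) ht (Eventually.of_forall fun n => by simp)
  obtain ⟨n, hn⟩ := (h3.eventually (gt_mem_nhds hδ)).exists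
  rw [div_lt_iff₀ (hpos n)] at hn
  exact absurd (hy2 n γ hγ) (not_lt.2 hn.le)

end Pool.Agent.H754Z.TA.P6b
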